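import Pool.Agent.H39.SG2

/-! A countable Borel equivalence relation `E` with `ℝE ≅ E` that is not universally
structurable. -/

namespace Pool.Agent.Results.MP_10b896_lc.NotUniv

open Set Pool.Agent.H39

/-- `E` is a countable Borel equivalence relation. -/
def CBER {X : Type} [MeasurableSpace X] (E : X → X → Prop) : Prop :=
  Equivalence E ∧ MeasurableSet {p : X × X | E p.1 p.2} ∧ ∀ x, {y | E x y}.Countable

/-- Borel isomorphism. -/
def Iso {X Y : Type} [MeasurableSpace X] [MeasurableSpace Y] (E : X → X → Prop)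
    (F : Y → Y → Prop) : Prop :=
  ∃ f : X → Y, Measurable f ∧ Function.Bijective f ∧ ∀ x x', E x x' ↔ F (f x) (f x')

/-- Invariant Borel embedding. -/
def InvEmb {X Y : Type} [MeasurableSpace X] [MeasurableSpace Y] (E : X → X → Prop)
    (F : Y → Y → Prop) : Prop :=
  ∃ f : X → Y, Measurable f ∧ Function.Injective f ∧ (∀ x x', E x x' ↔ F (f x) (f x')) ∧
    ∀ y ∈ range f, ∀ y', F y y' → y' ∈ range f

/-- `ℝE`. -/
def RMul {X : Type} (E : X → X → Prop) (p q : X × ℝ) : Prop := E p.1 q.1 ∧ p.2 = q.2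

/-- Formulas of `L_{ω₁ω}` with `n` free variables, over relation symbols `S` with arities `ar`. -/
inductive Fm {S : Type} (ar : S → ℕ) : ℕ → Type
  | rel {n : ℕ} (s : S) (v : Fin (ar s) → Fin n) : Fm ar n
  | eq {n : ℕ} (i j : Fin n) : Fm ar n
  | neg {n : ℕ} (φ : Fm ar n) : Fm ar n
  | conj {n : ℕ} (φ : ℕ → Fm ar n) : Fm ar n
  | ex {n : ℕ} (φ : Fm ar (n + 1)) : Fm ar n

/-- Satisfaction in the structure with universe `M` and relations `R`. -/
def Sat {S : Type} {ar : S → ℕ} {M : Type} (R : ∀ s, (Fin (ar s) → M) → Prop) :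
    ∀ {n : ℕ}, Fm ar n → (Fin n → M) → Prop
  | _, .rel s v, a => R s fun i => a (v i)
  | _, .eq i j, a => a i = a j
  | _, .neg φ, a => ¬Sat R φ a
  | _, .conj φ, a => ∀ k, Sat R (φ k) a
  | _, .ex φ, a => ∃ x, Sat R φ (Fin.cons x a)

/-- `E` carries a Borel `σ`-structure. -/
def Structurable {S : Type} {ar : S → ℕ} (σ : Fm ar 0) {X : Type} [MeasurableSpace X]
    (E : X → X → Prop) : Prop :=
  ∃ R : ∀ s, (Fin (ar s) → X) → Prop, (∀ s, MeasurableSet {v | R s v}) ∧
    (∀ s v, R s v → ∀ i j, E (v i) (v j)) ∧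
    ∀ x, Sat (M := {y // E x y}) (fun s v => R s fun i => (v i).1) σ Fin.elim0

/-- `E` is universally structurable. -/
def UnivStruct {X : Type} [MeasurableSpace X] (E : X → X → Prop) : Prop :=
  ∃ (S : Type) (_ : Countable S) (ar : S → ℕ) (σ : Fm ar 0) (Y : Type) (_ : MeasurableSpace Y)
    (_ : StandardBorelSpace Y) (U : Y → Y → Prop), CBER U ∧ Structurable σ U ∧
    (∀ (Z : Type) [MeasurableSpace Z] [StandardBorelSpace Z] (F : Z → Z → Prop),
      CBER F → Structurable σ F → InvEmb F U) ∧ Iso E U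

theorem sat_bij {S : Type} {ar : S → ℕ} {M N : Type} (R : ∀ s, (Fin (ar s) → N) → Prop)
    {e : M → N} (he : Function.Bijective e) {n : ℕ} (φ : Fm ar n) (a : Fin n → M) :
    Sat (fun s v => R s fun i => e (v i)) φ a ↔ Sat R φ fun i => e (a i) := by
  induction φ with
  | rel s v => rfl
  | eq i j => exact he.1.eq_iff.symm
  | neg φ ih => exact not_congr (ih a)
  | conj φ ih => exact forall_congr' fun k => ih k a
  | ex φ ih =>
    refine Iff.trans (exists_congr fun x => ?_) he.2.exists.symm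
    rw [ih]
    exact iff_of_eq (congrArg _ (funext fun i => by cases i using Fin.cases <;> rfl))

theorem pull {S : Type} {ar : S → ℕ} {σ : Fm ar 0} {Y Z : Type} [MeasurableSpace Y]
    [MeasurableSpace Z] {U : Y → Y → Prop} {F : Z → Z → Prop} (hF : CBER F) {g : Z → Y}
    (h1 : Measurable g) (h2 : ∀ z z', F z z' → U (g z) (g z'))
    (h3 : ∀ z y, U (g z) y → ∃! z', F z z' ∧ g z' = y) (h : Structurable σ U) :
    Structurable σ F := by
  obtain ⟨R, r1, -, r3⟩ := h
  refine ⟨fun s v => (∀ i j, F (v i) (v j)) ∧ R s fun i => g (v i), fun s => ?_,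
    fun s v h => h.1, fun z => ?_⟩
  · refine MeasurableSet.inter ?_ ((measurable_pi_lambda _ fun i =>
      h1.comp (measurable_pi_apply i)) (r1 s))
    exact measurableSet_setOfPred.2 (Measurable.forall fun i => Measurable.forall fun j =>
      (measurableSet_setOfPred.1 hF.2.1).comp (f := fun v : Fin (ar s) → Z => (v i, v j))
        (by fun_prop))
  · have h4 := (sat_bij (fun s v => R s fun i => (v i : {y // U (g z) y}).1)
      (e := fun w : {w // F z w} => ⟨g w.1, h2 _ _ w.2⟩) ⟨fun a b h => Subtype.ext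
        ((h3 z _ (h2 _ _ a.2)).unique ⟨a.2, rfl⟩ ⟨b.2, (congrArg Subtype.val h).symm⟩), fun y => by
          obtain ⟨w, hw, -⟩ := h3 z y.1 y.2
          exact ⟨⟨w, hw.1⟩, Subtype.ext hw.2⟩⟩ σ Fin.elim0).2
      (cast (congrArg _ (funext fun i => i.elim0)) (r3 (g z)))
    convert h4 using 3 with s v
    exact and_iff_right fun i j => hF.1.trans (hF.1.symm (v i).2) (v j).2

theorem orbit {X : Type} [MeasurableSpace X] [StandardBorelSpace X] {γ : SG.I → X → X}
    (h0 : ∀ i, Measurable (γ i)) (h1 : ∀ x, γ (1, 0, 0) x = x)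
    (h2 : ∀ i x, γ (SG.inv i) (γ i x) = x) (h3 : ∀ i j x, γ (SG.mul i j) x = γ i (γ j x)) :
    CBER fun x y => ∃ i, y = γ i x := by
  refine ⟨⟨fun x => ⟨_, (h1 x).symm⟩, ?_, ?_⟩, ?_, fun x => (countable_range (γ · x)).mono ?_⟩
  · rintro x _ ⟨i, rfl⟩
    exact ⟨_, (h2 i x).symm⟩
  · rintro x _ _ ⟨i, rfl⟩ ⟨j, rfl⟩
    exact ⟨_, (h3 j i x).symm⟩
  · simp only [ofPred_exists]
    exact MeasurableSet.iUnion fun i => measurableSet_eq_fun measurable_snd ((h0 i).comp measurable_fst)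
  · rintro _ ⟨i, rfl⟩
    exact ⟨i, rfl⟩

theorem result : ∃ (X : Type) (_ : MeasurableSpace X) (_ : StandardBorelSpace X)
    (E : X → X → Prop), CBER E ∧ Iso (RMul E) E ∧ ¬UnivStruct E := by
  have hF : CBER SG.F := orbit (fun i => (SG.cont_mv i).measurable) SG.mv_one SG.mv_inv SG.mv_mul
  have hF' : CBER SG.F' := orbit SG.meas_gm SG.gm_one SG.gm_inv SG.gm_mul
  refine ⟨SG.T × ℝ, inferInstance, StandardBorelSpace.prod, RMul SG.F, ⟨⟨fun p => ⟨hF.1.refl _, rfl⟩,
    fun h => ⟨hF.1.symm h.1, h.2.symm⟩, fun h h' => ⟨hF.1.trans h.1 h'.1, h.2.trans h'.2⟩⟩,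
    ((measurable_fst.fst.prodMk measurable_snd.fst) hF.2.1).inter
      (measurableSet_eq_fun measurable_fst.snd measurable_snd.snd),
    fun p => ((hF.2.2 p.1).image (·, p.2)).mono fun q h =>
      (mem_image _ _ _).2 ⟨q.1, h.1, Prod.ext rfl h.2⟩⟩, ?_, ?_⟩
  · let e : ℝ × ℝ ≃ᵐ ℝ := PolishSpace.measurableEquivOfNotCountable not_countable not_countable
    refine ⟨fun p => (p.1.1, e (p.1.2, p.2)), by fun_prop,
      ((Equiv.prodAssoc _ _ _).trans ((Equiv.refl _).prodCongr e.toEquiv)).bijective,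
      fun p q => ?_⟩
    simp only [RMul, e.injective.eq_iff, Prod.mk.injEq, and_assoc]
  · rintro ⟨S, -, ar, σ, Y, _, _, U, -, h1, h2, g, g1, g2, g3⟩
    obtain ⟨f, f1, f2, f3, f4⟩ := h2 _ _ hF' (pull hF' (g := fun z => g (z.1, 0)) (by fun_prop)
      (by rintro z _ ⟨i, rfl⟩; exact (g3 _ _).1 ⟨⟨i, rfl⟩, rfl⟩) (fun z y hy => by
        obtain ⟨⟨_, _⟩, rfl⟩ := g2.2 y
        obtain ⟨⟨i, rfl⟩, rfl⟩ := (g3 _ _).2 hy
        refine ⟨SG.gm i z, ⟨⟨i, rfl⟩, rfl⟩, ?_⟩
        rintro _ ⟨⟨j, rfl⟩, hj⟩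
        exact SG.gm_uniq (congrArg Prod.fst (g2.1 hj))) h1)
    have : StandardBorelSpace (SG.T × ℝ) := StandardBorelSpace.prod
    have he := g1.measurableEmbedding g2.1
    have h3 : ∀ y, g (he.invFun y) = y := he.leftInverse_invFun.rightInverse_of_surjective g2.2
    refine SG.no_emb (f := fun z => he.invFun (f z)) (he.measurable_invFun.comp f1)
      ((Function.LeftInverse.injective h3).comp f2) (fun z z' => ?_) fun z w hw => ?_
    · rw [f3, ← h3 (f z), ← h3 (f z'), ← g3, he.leftInverse_invFun, he.leftInverse_invFun]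
      rfl
    · obtain ⟨u, hu⟩ := f4 _ ⟨z, rfl⟩ _ (h3 (f z) ▸ (g3 _ (w, _)).1 ⟨hw, rfl⟩)
      exact ⟨u, by simp only [hu, he.leftInverse_invFun _]⟩

end Pool.Agent.Results.MP_10b896_lc.NotUniv
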